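import Pool.Agent.X39.Near.MasterI
import Pool.Agent.Results.MP_ede373_nt.AlgebraicPointsOrNomes

/-!
# The modular Schanuel conjecture with derivatives at ALL algebraic points of a curve close to any point outside a set of dimension zero

Let `τ_1, …, τ_p` be analytic functions on a connected open set `U` with values in the upper half-plane, such that no
nontrivial combination of them with integral coefficients is constant and `j(τ_i)` and `j(τ_k)` are algebraically
independent over `ℂ` for `i ≠ k`, and let `p` of the `5 p` functions `τ_i(x)`, `j(τ_i(x))`, `j'(τ_i(x))`, `j''(τ_i(x))`,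
`exp(2 π i τ_i(x))` be algebraic over `ℂ(x)`; for instance, for every `i`, the point, or the invariant, or the nome.
Outside ONE set of complex numbers `x` of Hausdorff dimension `0`, for all number fields `F ⊂ ℂ`, all `ω > 0`, `d` and
`A` there are `B` and `T₁` such that for all `T ≥ T₁` and ALL `t ∈ F` of height at most `T` with `|t - x| ≤ T ^ (-ω)` all
the other `4 p` numbers at the point `t` satisfy no relation of degree at most `d` with coefficients which are
polynomials of degree at most `d` in the `u_k(t) / w(t)` and in given complex numbers `ξ_i` (for instance `π`, or values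
at special points), with coefficients in `F` of height at most `T ^ A`, not even up to `T ^ (-B)`. In particular this holds
at the convergents of all irrational real numbers in `U` outside this set, from some point on.
-/

set_option autoImplicit false

open MeasureTheory NumberField
open Pool.Agent.Results.MP_ede373_nt.AlgebraicPointsOrNomes

namespace Pool.Agent.Results.MP_ede373_nt.ApproximationsOfAllNumbers

open Pool.Agent.X39.Near (Size Dependent)

/-- the functions with names outside `S` -/
noncomputable def others {p : ℕ} (τ : Fin p → ℂ → ℂ) (S : Finset (Name p)) (k : {x : Name p // x ∉ S}) (z : ℂ) : ℂ :=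
  value τ z k.1

/-- **Theorem.** Let `τ_1, …, τ_p` be a curve in `ℍ^p`, `S` the set of the names of `p` of the `5 p` functions which are
algebraic; let `u_k`, `w` be complex polynomials, `w` without zeros on `U`, and `ξ_1, …, ξ_g` complex numbers. There is a set `E` of complex numbers of Hausdorff dimension `0` such that: (1) for all `x ∈ U` outside `E`, all
number fields `F` with an embedding `ι` in `ℂ`, all `d`, `A` and `ω > 0` there are `B`, `T₁` such that for all
`T ≥ T₁` and all `t ∈ F`, quotients of integers with conjugates at most `T`, with `|ι t - x| ≤ T ^ (-ω)`, the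
values of these functions at `t` are not dependent; (2) for all irrational real `x ∈ U` outside `E` and all `d`,
`A` there is `B` such that the values at the convergents `t` of `x` are not dependent over `ℚ`, at the level of
the denominator, from some point on. -/
theorem result {p q g : ℕ} (U : Set ℂ) (τ : Fin p → ℂ → ℂ) (S : Finset (Name p)) (hC : Curve U τ S)
    (u : Fin q → Polynomial ℂ) (w : Polynomial ℂ) (hw : ∀ t ∈ U, w.eval t ≠ 0) (ξ : Fin g → ℂ) :
    ∃ E : Set ℂ, dimH E = 0 ∧
      (∀ x ∈ U, x ∉ E → ∀ (F : Type) [Field F] [NumberField F] (ι : F →+* ℂ)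
        (d A : ℕ) (ω : ℝ), 0 < ω → ∃ B T₁ : ℝ, ∀ T : ℝ, T₁ ≤ T → ∀ t : F, Size F T t →
          ‖ι t - x‖ ≤ T ^ (-ω) → ¬ Dependent (others τ S) u w ξ F ι d A B T t) ∧
      ∀ x : ℝ, Irrational x → (x : ℂ) ∈ U → (x : ℂ) ∉ E → ∀ d A : ℕ, ∃ (B : ℝ) (n₀ : ℕ), ∀ k : ℕ,
        n₀ ≤ k → ¬ Dependent (others τ S) u w ξ ℚ (algebraMap ℚ ℂ) d A B (x.convergent k).den
          (x.convergent k) := by
  classical
  have hval : ∀ (k : {x : Name p // x ∉ S}) z, z ∈ U → Pool.Agent.Y776.AxJ.yn τ (mn k.1) z = others τ S k z := by
    intro k z hz
    rw [← value_eq hC hz]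
    have h4 : nm (mn k.1) = k.1 := (eqv _).right_inv _
    rw [h4]
    rfl
  have han : ∀ k : {x : Name p // x ∉ S}, ∀ z ∈ U, AnalyticAt ℂ (others τ S k) z := by
    intro k z hz
    refine (Pool.Agent.Y776.AxJ.yn_an (fmj hC) (mn k.1) z hz).congr ?_
    filter_upwards [hC.isOpen.mem_nhds hz] with y hy
    exact hval k y hy
  have hloc : ∀ t ∈ U, Pool.Agent.Y124.LocInd (others τ S) t := by
    intro t ht P hP
    apply loc hC t ht P
    filter_upwards [hP, hC.isOpen.mem_nhds ht] with z hz hzU
    rw [← hz]
    congr 2
    funext o
    rcases o with _ | k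
    · rfl
    · exact hval k z hzU
  exact Pool.Agent.X39.Near.master U hC.isOpen (others τ S) han hloc u w hw ξ

end Pool.Agent.Results.MP_ede373_nt.ApproximationsOfAllNumbers
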