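import Pool.Agent.Y771.KF.MSR

/-!
# Values of `j`, `j'` and `j''` at several points of comparable height, parameters in a real number field

Let `f_1, …, f_m` be real analytic and positive on `[a₀, ∞)`, of comparable size (`f_l = O (f_k)` for all `k`, `l`), such
that no nontrivial integer combination `∑ c_k f_k (t)` is `O (log t)` along a sequence tending to infinity. Examples are
`f_k (t) = s_k t ^ ρ` (`ρ > 0`, the `s_k` positive and linearly independent over `ℚ`), or `t`, `t + √t`, `t + t ^ (1/3)`.

For `n`-tuples `(x_1, …, x_n)` of elements of a real number field `k` we consider the `m n` points `z = i f_k (x_l)` of the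
upper half-plane and the `3 m n + 1` numbers `π` and `j (z)`, `j' (z)`, `j'' (z)`. We prove that the `n`-tuples of height at
most `T` with `x_l ∈ [a, b]` for which these numbers satisfy a relation (even an approximate one) of degree at most `d` with
coefficients in `k` of height at most `T ^ A` lie on at most `C T ^ ε` hypersurfaces of degree at most `D`, and that their
number is at most `C T ^ ε N (T) ^ (n - 1)`, `N (T)` the number of elements of `k` of height at most `T`.

An earlier result of this pool (`ComparableGrowth`) had, for rational numbers and integer coefficients, the bound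
`C T ^ (2 (n - 1) + β)`, `β > 2 - 2 / ((d + 1)^(3 m n + 1) + 1)`, for the number of the exceptional tuples.

Proof: the general theorem `Pool.Agent.Y124.core`, used over number fields (`Pool.Agent.Y771.KF.stdK`), and lower bounds near
the cusp for polynomials in the functions `j`, `j'`, `j''` at all points `i f_k (t)` together (`Pool.Agent.TH21.MS.Comp`).
-/

set_option autoImplicit false

open Filter

namespace Pool.Agent.Results.MP_ede373_nt.ComparableGrowthRealFields

/-- the normalised Eisenstein series of weight `4` -/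
noncomputable def E4 (τ : ℂ) : ℂ :=
  1 + 240 * ∑' m : ℕ, ((ArithmeticFunction.sigma 3 (m + 1) : ℕ) : ℂ) *
    Complex.exp (2 * (Real.pi : ℂ) * Complex.I * τ) ^ (m + 1)

/-- the normalised Eisenstein series of weight `6` -/
noncomputable def E6 (τ : ℂ) : ℂ :=
  1 - 504 * ∑' m : ℕ, ((ArithmeticFunction.sigma 5 (m + 1) : ℕ) : ℂ) *
    Complex.exp (2 * (Real.pi : ℂ) * Complex.I * τ) ^ (m + 1)

/-- the modular invariant `j = q⁻¹ + 744 + 196884 q + ⋯` -/
noncomputable def j (τ : ℂ) : ℂ := 1728 * E4 τ ^ 3 / (E4 τ ^ 3 - E6 τ ^ 2)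

/-- `j (z), j' (z), j'' (z)` (complex derivatives) -/
noncomputable def jet (z : ℂ) : Fin 3 → ℂ := ![j z, deriv j z, deriv (deriv j) z]

/-- the `3 m n + 1` numbers `π` and `j (z), j' (z), j'' (z)` at the points `z = i f_i (x_l)`, `i ≤ m`, `l ≤ n` -/
noncomputable def numbers {k : Type} [Field k] (τ : k →+* ℝ) {m n : ℕ} (f : Fin m → ℝ → ℝ) (x : Fin n → k)
    (i : Option (Fin n × (Fin m × Fin 3))) : ℂ :=
  i.elim (Real.pi : ℂ) fun q => jet (Complex.I * (f q.2.1 (τ (x q.1)) : ℂ)) q.2.2

/-- The `n`-tuples `x` of elements of `k`, of height at most `T` and with `τ x_l ∈ [a, b]`, for which some nonzero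
polynomial with coefficients in `k` of height at most `T ^ A`, of degree at most `d` in each variable, takes at
the `3 m n + 1` numbers a value of absolute value at most `T ^ (-B)`. -/
def Exceptional {k : Type} [Field k] [NumberField k] (τ : k →+* ℝ) {m : ℕ} (n d : ℕ) (f : Fin m → ℝ → ℝ)
    (a b A B T : ℝ) : Set (Fin n → k) :=
  {x | (∀ l, τ (x l) ∈ Set.Icc a b ∧ Height.mulHeight₁ (x l) ≤ T) ∧
    ∃ P : MvPolynomial (Option (Fin n × (Fin m × Fin 3))) k, P ≠ 0 ∧ (∀ i, P.degreeOf i ≤ d) ∧
      (∀ e, Height.mulHeight₁ (P.coeff e) ≤ T ^ A) ∧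
      ‖MvPolynomial.eval₂ (Complex.ofRealHom.comp τ) (numbers τ f x) P‖ ≤ T ^ (-B)}

/-- Let `f_1, …, f_m` be positive and analytic on `[a, ∞)`, of comparable size, with no nontrivial integer combination of
logarithmic size along a sequence tending to infinity. For every `ε > 0` there are `D`, `B` and `C` such that for all
`T ≥ 1` the exceptional `n`-tuples are zeros of at most `C T ^ ε` nonzero polynomials of degree at most `D`, and their
number is at most `C T ^ ε N (T) ^ (n - 1)`, where `N (T)` is the number of elements of `k` of height at most `T`. -/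
theorem result (k : Type) [Field k] [NumberField k] (τ : k →+* ℝ) (m n d : ℕ) (hn : 1 ≤ n) (A a b K ε : ℝ)
    (hab : a < b) (hε : 0 < ε) (f : Fin m → ℝ → ℝ) (hf : ∀ i, AnalyticOnNhd ℝ (f i) (Set.Ici a))
    (hpos : ∀ i, ∀ t, a ≤ t → 0 < f i t) (hK : ∀ i l, ∀ᶠ t in atTop, f l t ≤ K * f i t)
    (hH : ∀ c : Fin m → ℤ, c ≠ 0 → Tendsto (fun t => |∑ i, (c i : ℝ) * f i t| / Real.log t) atTop atTop) :
    ∃ (D : ℕ) (B C : ℝ), ∀ T : ℝ, 1 ≤ T →
      (∃ Φ : Finset (MvPolynomial (Fin n) k), (Φ.card : ℝ) ≤ C * T ^ ε ∧ (∀ Q ∈ Φ, Q ≠ 0 ∧ Q.totalDegree ≤ D) ∧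
        ∀ x ∈ Exceptional τ n d f a b A B T, ∃ Q ∈ Φ, MvPolynomial.eval x Q = 0) ∧
      (Exceptional τ n d f a b A B T).Finite ∧
      ((Exceptional τ n d f a b A B T).ncard : ℝ) ≤
        C * T ^ ε * ({x : k | Height.mulHeight₁ x ≤ T}.ncard : ℝ) ^ (n - 1) := by
  obtain ⟨D, B, C, h⟩ := Pool.Agent.Y771.KF.compmainK τ f a hf hpos K hK hH n d hn A a b le_rfl hab ε hε
  exact ⟨D, B, C, fun T hT => h T hT⟩

end Pool.Agent.Results.MP_ede373_nt.ComparableGrowthRealFields
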