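import Pool.Agent.X120.JG.Fin
import Pool.Agent.Y120.J.JDef

/-!
# The modular Schanuel conjecture with derivatives at the points where `j` is a term of a geometric sequence

Let `b_1, …, b_k ≥ 2` be integers, not necessarily different. We prove that for almost all tuples of exponents
`(n_1, …, n_k)`, and for **all** points `z_i` of the upper half-plane with `j(z_i) = b_i^(n_i)` or `j(z_i) = -b_i^(n_i)`,
the `3 k` numbers `z_i`, `j'(z_i)`, `j''(z_i)` do not satisfy any polynomial relation of degree at most `δ`, whatever the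
height of the coefficients; they may even lie in any `ℚ`-vector space `V` of complex numbers of dimension at most `D` (for
example in a number field of degree `D`, or in the space of the polynomials of bounded degree in `π` and
`log b_1, …, log b_k`, or in the values of `j'` at given CM points). At most `C N^(k-1) log N` of the `N^k` tuples in
`[1, N]^k` are exceptional, with `C` depending only on the `b_i`, `δ`, `D`. The degree `δ` and the dimension `D` may also
grow with `N`, with `o(N^k)` exceptions.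

The theorem `MP_ede373_nt.IntegralInvariants` on almost all tuples of integers `j(z_i)` in boxes, with a power saving, says
nothing about such sparse sequences: only `log X` of the integers up to `X` are powers of `b`.

Proof. At `X = 1/j(z)`, `2 π i z = log X + G(X)/F(X)` with the G-functions `F`, `G` of the hypergeometric equation of `j`.
A Hermite-Padé argument at the points `b^(-n)` for many `n` together (all denominators are powers of `b`), where the
equation is regular singular at infinity with rational exponents, shows that outside `C` exponents in each dyadic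
interval all relations between the values are specialisations of functional relations; the `k` variables are treated by
induction. There are no functional relations between `F^2`, `F G`, `F θF` and `X`. The logarithms are
`n_i log b_i` and go to the coefficients.
-/

set_option autoImplicit false

open Filter

namespace Pool.Agent.Results.MP_ede373_nt.GeometricInvariants

/-- the normalised Eisenstein series of weight `4` -/
noncomputable def E4 (τ : ℂ) : ℂ :=
  1 + 240 * ∑' m : ℕ, ((ArithmeticFunction.sigma 3 (m + 1) : ℕ) : ℂ) *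
    Complex.exp (2 * (Real.pi : ℂ) * Complex.I * ((m : ℂ) + 1) * τ)

/-- the normalised Eisenstein series of weight `6` -/
noncomputable def E6 (τ : ℂ) : ℂ :=
  1 - 504 * ∑' m : ℕ, ((ArithmeticFunction.sigma 5 (m + 1) : ℕ) : ℂ) *
    Complex.exp (2 * (Real.pi : ℂ) * Complex.I * ((m : ℂ) + 1) * τ)

/-- the modular invariant `j = q⁻¹ + 744 + 196884 q + ⋯` -/
noncomputable def J (τ : ℂ) : ℂ := 1728 * E4 τ ^ 3 / (E4 τ ^ 3 - E6 τ ^ 2)

/-- the numbers `z`, `j'(z)`, `j''(z)` -/
noncomputable def numbers (z : ℂ) : Fin 3 → ℂ := ![z, deriv J z, deriv (deriv J) z]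

/-- For some points `z_1, …, z_k` of the upper half-plane with `j(z_i) = a_i` or `j(z_i) = -a_i` the `3 k` numbers `z_i`,
`j'(z_i)`, `j''(z_i)` satisfy a polynomial relation of total degree at most `δ`, not trivial, with coefficients in `V`. -/
def Exceptional (δ : ℕ) (V : Submodule ℚ ℂ) {k : ℕ} (a : Fin k → ℂ) : Prop :=
  ∃ z : Fin k → ℂ, (∀ i, 0 < (z i).im ∧ (J (z i) = a i ∨ J (z i) = -a i)) ∧
    ∃ P : MvPolynomial (Fin k × Fin 3) ℂ, P ≠ 0 ∧ P.totalDegree ≤ δ ∧ (∀ s, P.coeff s ∈ V) ∧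
      MvPolynomial.eval (fun v => numbers (z v.1) v.2) P = 0

theorem J_eq : J = Pool.Agent.TH21.MS.jj := by
  have h4 : E4 = Pool.Agent.TH21.MS.E4 := funext Pool.Agent.Y120.J.E4_same
  have h6 : E6 = Pool.Agent.TH21.MS.E6 := funext Pool.Agent.Y120.J.E6_same
  funext τ
  unfold J Pool.Agent.TH21.MS.jj
  rw [h4, h6]

theorem exc {δ : ℕ} {V : Submodule ℚ ℂ} {k : ℕ} {a : Fin k → ℂ} (h : Exceptional δ V a) : Pool.Agent.X120.JG.ExJ δ V a := by
  obtain ⟨z, hz, P, hP0, hPd, hPV, hP⟩ := h
  refine ⟨fun i => ⟨z i, (hz i).1⟩, fun i => ?_, P, hP0, hPd, hPV, ?_⟩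
  · have h1 := (hz i).2
    rw [J_eq] at h1
    exact h1
  · have h2 : (fun v : Fin k × Fin 3 => numbers (z v.1) v.2) = fun v => Pool.Agent.Y120.J.jt (z v.1) v.2 := by
      funext v
      unfold numbers Pool.Agent.Y120.J.jt
      rw [J_eq]
    rw [h2] at hP
    exact hP

/-- **The theorem.** -/
theorem result (k : ℕ) (b : Fin k → ℕ) (hb : ∀ i, 2 ≤ b i) :
    (∀ δ D : ℕ, ∃ C : ℝ, 0 ≤ C ∧ ∀ (V : Submodule ℚ ℂ), Module.Finite ℚ V → Module.finrank ℚ V ≤ D → ∀ N : ℕ, 2 ≤ N →
      (({n : Fin k → ℕ | (∀ i, 1 ≤ n i ∧ n i ≤ N) ∧ Exceptional δ V fun i => (b i : ℂ) ^ n i}.ncard : ℕ) : ℝ) * N ≤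
        C * (N : ℝ) ^ k * Real.log N) ∧
    (∃ (M : ℕ → ℕ) (ε : ℕ → ℝ), Tendsto M atTop atTop ∧ Tendsto ε atTop (nhds 0) ∧
      ∀ N : ℕ, 2 ≤ N → ∀ (V : Submodule ℚ ℂ), Module.Finite ℚ V → Module.finrank ℚ V ≤ M N →
      (({n : Fin k → ℕ | (∀ i, 1 ≤ n i ∧ n i ≤ N) ∧ Exceptional (M N) V fun i => (b i : ℂ) ^ n i}.ncard : ℕ) : ℝ) ≤
        ε N * (N : ℝ) ^ k) := by
  have hmain : ∀ δ D : ℕ, ∃ C : ℝ, 0 ≤ C ∧ ∀ (V : Submodule ℚ ℂ), Module.Finite ℚ V → Module.finrank ℚ V ≤ D → ∀ N : ℕ, 2 ≤ N →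
      (({n : Fin k → ℕ | (∀ i, 1 ≤ n i ∧ n i ≤ N) ∧ Exceptional δ V fun i => (b i : ℂ) ^ n i}.ncard : ℕ) : ℝ) * N ≤
        C * (N : ℝ) ^ k * Real.log N := by
    intro δ D
    obtain ⟨C, hC, h1⟩ := Pool.Agent.X120.JG.jetN k δ D hb
    refine ⟨C, hC, ?_⟩
    intro V hVf hV N hN
    refine le_trans (mul_le_mul_of_nonneg_right ?_ (Nat.cast_nonneg _)) (h1 V hV N hN)
    have hfin : {t : Fin k → ℕ | (∀ i, 1 ≤ t i ∧ t i ≤ N) ∧ Pool.Agent.X120.JG.ExJ δ V fun i => (b i : ℂ) ^ t i}.Finite := by
      refine (Set.finite_Iic (fun _ : Fin k => N)).subset ?_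
      intro t ht i
      exact (ht.1 i).2
    have hsub : {n : Fin k → ℕ | (∀ i, 1 ≤ n i ∧ n i ≤ N) ∧ Exceptional δ V fun i => (b i : ℂ) ^ n i} ⊆
        {t : Fin k → ℕ | (∀ i, 1 ≤ t i ∧ t i ≤ N) ∧ Pool.Agent.X120.JG.ExJ δ V fun i => (b i : ℂ) ^ t i} :=
      fun t ht => ⟨ht.1, exc ht.2⟩
    exact_mod_cast Set.ncard_le_ncard hsub hfin
  refine ⟨hmain, ?_⟩
  choose C hC hcount using hmain
  obtain ⟨M, hM, hε⟩ := Pool.Agent.Y123.GN.diag_seq (fun D N => C D D * (Real.log N / N)) (by
      intro D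
      have h1 : Tendsto (fun N : ℕ => Real.log N / N) atTop (nhds 0) :=
        (Real.isLittleO_log_id_atTop.tendsto_div_nhds_zero).comp tendsto_natCast_atTop_atTop
      have h5 := h1.const_mul (C D D)
      rw [mul_zero] at h5
      exact h5)
  refine ⟨M, _, hM, hε, ?_⟩
  intro N hN V hVf hV
  have h1 := hcount (M N) (M N) V hVf hV N hN
  have hN0 : (0 : ℝ) < N := by
    have : 0 < N := by omega
    exact_mod_cast this
  refine le_of_mul_le_mul_right (h1.trans (le_of_eq ?_)) hN0
  field_simp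

end Pool.Agent.Results.MP_ede373_nt.GeometricInvariants
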